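import Pool.Agent.helper65.GD.SpecF

set_option autoImplicit false

namespace Pool.Agent.GD

open Finset Metric Filter Topology

theorem XLB : XLB_stmt := by
  intro N w x m hat
  obtain ⟨hw0, hw1, hx⟩ := hat
  set c : ℂ := 2 * mom w x 1 with hc
  have hm1 : mom w x 1 = ∑ l, (w l : ℂ) * x l := by
    unfold mom
    exact Finset.sum_congr rfl (fun l _ => by rw [pow_one])
  have e0 : mom w x (m + 1) - c * mom w x m = ∑ l, (w l : ℂ) * ((x l - c) * x l ^ m) := by
    unfold mom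
    rw [Finset.mul_sum, ← Finset.sum_sub_distrib]
    refine Finset.sum_congr rfl (fun l _ => ?_)
    ring
  rw [e0]
  have hsq : ∑ l, w l * ‖x l - c‖ ^ 2 = 1 := by
    have h1 : ∀ l, w l * ‖x l - c‖ ^ 2 = w l + w l * ‖c‖ ^ 2 - 2 * ((w l : ℂ) * x l * (starRingEnd ℂ) c).re := by
      intro l
      have h2 : ‖x l - c‖ ^ 2 = ‖x l‖ ^ 2 + ‖c‖ ^ 2 - 2 * (x l * (starRingEnd ℂ) c).re := by
        rw [← Complex.normSq_eq_norm_sq, ← Complex.normSq_eq_norm_sq, ← Complex.normSq_eq_norm_sq,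
          Complex.normSq_sub]
      rw [h2, hx l, mul_assoc (w l : ℂ), Complex.re_ofReal_mul]
      ring
    rw [Finset.sum_congr rfl (fun l _ => h1 l), Finset.sum_sub_distrib, Finset.sum_add_distrib,
      ← Finset.sum_mul, hw1, one_mul, ← Finset.mul_sum, ← Complex.re_sum, ← Finset.sum_mul, ← hm1]
    have h3 : mom w x 1 * (starRingEnd ℂ) c = ((2 * ‖mom w x 1‖ ^ 2 : ℝ) : ℂ) := by
      rw [hc, map_mul, Complex.conj_ofNat, show mom w x 1 * (2 * (starRingEnd ℂ) (mom w x 1)) =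
        2 * (mom w x 1 * (starRingEnd ℂ) (mom w x 1)) by ring, Complex.mul_conj, Complex.normSq_eq_norm_sq]
      push_cast
      ring
    rw [h3, Complex.ofReal_re]
    have h4 : ‖c‖ ^ 2 = 4 * ‖mom w x 1‖ ^ 2 := by
      rw [hc, norm_mul, Complex.norm_ofNat, mul_pow]
      norm_num
    rw [h4]
    ring
  calc ‖∑ l, (w l : ℂ) * ((x l - c) * x l ^ m)‖
      ≤ ∑ l, ‖(w l : ℂ) * ((x l - c) * x l ^ m)‖ := norm_sum_le _ _
    _ ≤ ∑ l, (w l * ‖x l - c‖ ^ 2 + w l) / 2 := by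
        refine Finset.sum_le_sum (fun l _ => ?_)
        rw [norm_mul, norm_mul, norm_pow, hx l, one_pow, mul_one, Complex.norm_real, Real.norm_eq_abs,
          abs_of_nonneg (hw0 l)]
        nlinarith [hw0 l, mul_nonneg (hw0 l) (sq_nonneg (‖x l - c‖ - 1))]
    _ = 1 := by
        rw [← Finset.sum_div, Finset.sum_add_distrib, hsq, hw1]
        norm_num

end Pool.Agent.GD
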