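import Pool.Agent.helper65.GD.SpecF

set_option autoImplicit false

namespace Pool.Agent.GD

open Finset Metric Filter Topology

theorem XT2 (h1 : XT1_stmt) : XT2_stmt := by
  intro N w x y hat hy
  obtain ⟨hw0, hw1, hx⟩ := hat
  choose θ hθ using fun l => h1 (x l) y (hx l) hy
  refine ⟨∑ l, w l * θ l, ?_⟩
  intro z hz
  have hex : ∃ l, 0 < w l := by
    by_contra hcon
    push Not at hcon
    have : ∑ l, w l ≤ 0 := Finset.sum_nonpos (fun l _ => hcon l)
    linarith
  obtain ⟨l₀, hl₀⟩ := hex
  unfold TF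
  rw [← Complex.exp_add, Complex.exp_re]
  have him : (-(((∑ l, w l * θ l : ℝ) : ℂ) * Complex.I) +
      ∑ l, (w l : ℂ) * (Complex.log (1 - x l * z) - Complex.log (1 - y * z))).im =
      ∑ l, w l * ((Complex.log (1 - x l * z) - Complex.log (1 - y * z)).im - θ l) := by
    rw [Complex.add_im, Complex.im_sum, Complex.neg_im]
    have e1 : ((((∑ l, w l * θ l : ℝ) : ℂ)) * Complex.I).im = ∑ l, w l * θ l := by
      rw [Complex.im_ofReal_mul, Complex.I_im, mul_one]
    rw [e1]
    have e2 : ∀ l, ((w l : ℂ) * (Complex.log (1 - x l * z) - Complex.log (1 - y * z))).im =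
        w l * (Complex.log (1 - x l * z) - Complex.log (1 - y * z)).im := fun l => Complex.im_ofReal_mul _ _
    rw [Finset.sum_congr rfl (fun l _ => e2 l)]
    rw [← Finset.sum_neg_distrib, ← Finset.sum_add_distrib]
    refine Finset.sum_congr rfl (fun l _ => ?_)
    ring
  rw [him]
  apply mul_pos (Real.exp_pos _)
  apply Real.cos_pos_of_mem_Ioo
  have habs : |∑ l, w l * ((Complex.log (1 - x l * z) - Complex.log (1 - y * z)).im - θ l)| < Real.pi / 2 := by
    calc |∑ l, w l * ((Complex.log (1 - x l * z) - Complex.log (1 - y * z)).im - θ l)|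
        ≤ ∑ l, |w l * ((Complex.log (1 - x l * z) - Complex.log (1 - y * z)).im - θ l)| :=
          Finset.abs_sum_le_sum_abs _ _
      _ < ∑ l, w l * (Real.pi / 2) := by
          apply Finset.sum_lt_sum
          · intro l _
            rw [abs_mul, abs_of_nonneg (hw0 l)]
            exact mul_le_mul_of_nonneg_left (le_of_lt (hθ l z hz)) (hw0 l)
          · refine ⟨l₀, Finset.mem_univ _, ?_⟩
            rw [abs_mul, abs_of_nonneg (hw0 l₀)]
            exact mul_lt_mul_of_pos_left (hθ l₀ z hz) hl₀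
      _ = Real.pi / 2 := by rw [← Finset.sum_mul, hw1, one_mul]
  rw [abs_lt] at habs
  exact ⟨by linarith [habs.1], habs.2⟩

end Pool.Agent.GD
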